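import Pool.Agent.N760.IT.C
import Pool.Agent.T9h59.OR.B

/-!
# One exceptional set for countably many thin sets of objects

Forms of the tools of helper760 (orbits of Euler's function) and helper59 (orders of subgroups of `F_p^*`) for countably many
sets of objects at once.
-/

set_option autoImplicit false

namespace Pool.Agent.T9h86.PK

open Finset Filter Topology
open Pool.Agent.N733.TG (LM Expanding)
open Pool.Agent.N826.IT.Orb (AlmostAll almostAll_iff almostAll_mono almostAll_finset diagonal)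
open Pool.Agent.N760.IT (orb orbit_windows)
open Pool.Agent.T9h59.OR (SubOrder sub_windows)

/-- `S` has `O_ε(X ^ (s + ε))` elements of height at most `X`, for every `ε > 0` -/
def Thin {T : Type} (h : T → ℝ) (s : ℝ) (S : Set T) : Prop :=
  ∀ ε : ℝ, 0 < ε → ∃ C : ℝ, ∀ X : ℝ, 1 ≤ X →
    {t | t ∈ S ∧ h t ≤ X}.Finite ∧ ({t | t ∈ S ∧ h t ≤ X}.ncard : ℝ) ≤ C * X ^ (s + ε)

/-- finitely many numbers do not matter -/
lemma almostAll_ev {P Q : ℕ → Prop} {m₀ : ℕ} (h : AlmostAll P) (hPQ : ∀ m, m₀ ≤ m → P m → Q m) : AlmostAll Q := by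
  classical
  rw [almostAll_iff] at h ⊢
  intro ε hε
  obtain ⟨N₀, hN₀⟩ := h (ε / 2) (by positivity)
  obtain ⟨N₁, hN₁⟩ := exists_nat_ge (2 * (m₀ : ℝ) / ε)
  refine ⟨max N₀ N₁, fun N hN => ?_⟩
  have h1 := hN₀ N (le_trans (le_max_left _ _) hN)
  have h2 : (m₀ : ℝ) ≤ ε / 2 * N := by
    have h3 : (N₁ : ℝ) ≤ N := by exact_mod_cast le_trans (le_max_right _ _) hN
    have h4 : 2 * (m₀ : ℝ) / ε ≤ N := hN₁.trans h3
    rw [div_le_iff₀ hε] at h4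
    linarith
  have h3 : (Icc 1 N).filter (fun m => ¬ Q m) ⊆ (Icc 1 N).filter (fun m => ¬ P m) ∪ range m₀ := by
    intro m hm
    rw [mem_filter] at hm
    rw [mem_union, mem_filter, mem_range]
    by_cases h5 : m < m₀
    · exact Or.inr h5
    · exact Or.inl ⟨hm.1, fun h6 => hm.2 (hPQ m (by omega) h6)⟩
  have h4 : (((Icc 1 N).filter (fun m => ¬ Q m)).card : ℝ) ≤ (((Icc 1 N).filter (fun m => ¬ P m)).card : ℝ) + m₀ := by
    have h5 := (card_le_card h3).trans (card_union_le _ _)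
    rw [card_range] at h5
    exact_mod_cast h5
  have h6 : (((Icc 1 N).filter (fun m => ¬ P m)).card : ℝ) ≤ ε / 2 * N := by
    refine le_trans (le_of_eq ?_) h1
    congr!
  have h7 : (((Icc 1 N).filter (fun m => ¬ Q m)).card : ℝ) ≤ ε * N := by linarith
  refine le_trans (le_of_eq ?_) h7
  congr!

/-- **Orbits.** One exceptional set of density zero, and one function `K`, for countably many thin sets. -/
theorem orbits_all {T : Type} (h : T → ℝ) {𝓢 : Set (Set T)} (h𝓢 : 𝓢.Countable) {f : ℕ → ℕ} (hf : LM f) {G : ℕ → ℝ}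
    {d : ℝ} (hG : Expanding G d) {s κ : ℝ} (hs : 0 ≤ s) (hκ : 0 ≤ κ) (h1 : d * s + κ < 1)
    (hthin : ∀ S ∈ 𝓢, Thin h s S) :
    ∃ (K : ℕ → ℕ) (E : Set ℕ), Tendsto K atTop atTop ∧ AlmostAll (fun m => m ∉ E) ∧
      ∀ S ∈ 𝓢, {m : ℕ | m ∉ E ∧ ¬ ∀ k ≤ K m, ∀ t ∈ S, ¬ |h t - G (orb f k m)| ≤ (orb f k m : ℝ) ^ κ}.Finite := by
  rcases 𝓢.eq_empty_or_nonempty with he | hne
  · refine ⟨id, ∅, tendsto_id, ?_, fun S hS => ?_⟩
    · rw [almostAll_iff]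
      intro ε hε
      refine ⟨0, fun N _ => ?_⟩
      simp
      positivity
    · rw [he] at hS
      exact absurd hS (Set.notMem_empty _)
  obtain ⟨g, hg⟩ := h𝓢.exists_eq_range hne
  have hgS : ∀ i, g i ∈ 𝓢 := fun i => by rw [hg]; exact ⟨i, rfl⟩
  choose L hL hL2 using fun i => orbit_windows (g i) h hf hG hs hκ h1 (hthin _ (hgS i))
  obtain ⟨K, hK, hK2⟩ := diagonal (P := fun j m => ∀ i ≤ j, ∀ k ≤ j, ∀ t ∈ g i,
      ¬ |h t - G (orb f k m)| ≤ (orb f k m : ℝ) ^ κ) (fun i j m hij hP a ha k hk => hP a (ha.trans hij) k (hk.trans hij))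
    (fun j => by
      have h2 := almostAll_finset (range (j + 1)) (P := fun i m => ∀ k ≤ j, ∀ t ∈ g i,
        ¬ |h t - G (orb f k m)| ≤ (orb f k m : ℝ) ^ κ) (fun i _ => by
          obtain ⟨m₀, hm₀⟩ := eventually_atTop.1 ((hL i).eventually_ge_atTop j)
          exact almostAll_ev (m₀ := m₀) (hL2 i) fun m hm hP k hk => hP k (hk.trans (hm₀ m hm)))
      exact almostAll_mono h2 (fun m hm i hi => hm i (mem_range.2 (by omega))))
  refine ⟨K, {m | ¬ ∀ i ≤ K m, ∀ k ≤ K m, ∀ t ∈ g i, ¬ |h t - G (orb f k m)| ≤ (orb f k m : ℝ) ^ κ}, hK,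
    almostAll_mono hK2 (fun m hm => by
      rw [Set.mem_ofPred_eq, not_not]
      exact hm), fun S hS => ?_⟩
  rw [hg] at hS
  obtain ⟨i, rfl⟩ := hS
  obtain ⟨m₀, hm₀⟩ := eventually_atTop.1 (hK.eventually_ge_atTop i)
  refine (Set.finite_Iio m₀).subset ?_
  rintro m ⟨hm1, hm2⟩
  rw [Set.mem_ofPred_eq, not_not] at hm1
  rw [Set.mem_Iio]
  by_contra hcon
  exact hm2 (hm1 i (hm₀ m (by omega)))

/-- **One small set.** -/
theorem one_set {σ σ' : ℝ} (hσ : σ' < σ) (A : ℕ → Set ℕ) (C : ℕ → ℝ)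
    (hA : ∀ i, ∀ X : ℕ, 1 ≤ X → ({p : ℕ | p ∈ A i ∧ p ≤ X}.ncard : ℝ) ≤ C i * (X : ℝ) ^ σ') :
    ∃ E : Set ℕ, (∀ X : ℕ, 1 ≤ X → ({p : ℕ | p ∈ E ∧ p ≤ X}.ncard : ℝ) ≤ (X : ℝ) ^ σ) ∧ ∀ i, (A i \ E).Finite := by
  have h1 : ∀ i : ℕ, ∃ M : ℕ, i ≤ M ∧ ∀ X : ℕ, M ≤ X → 1 ≤ X → C i * (X : ℝ) ^ σ' ≤ (1 / 2 : ℝ) ^ (i + 1) * (X : ℝ) ^ σ := by
    intro i
    have h2 : Tendsto (fun X : ℕ => (X : ℝ) ^ (σ - σ')) atTop atTop :=
      (tendsto_rpow_atTop (by linarith)).comp tendsto_natCast_atTop_atTop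
    obtain ⟨M, hM⟩ := eventually_atTop.1 (h2.eventually_ge_atTop (C i * 2 ^ (i + 1)))
    refine ⟨max i M, le_max_left _ _, fun X hX hX1 => ?_⟩
    have h3 := hM X (le_trans (le_max_right _ _) hX)
    have hX0 : (0 : ℝ) < X := by exact_mod_cast hX1
    have h4 : (X : ℝ) ^ σ = (X : ℝ) ^ σ' * (X : ℝ) ^ (σ - σ') := by
      rw [← Real.rpow_add hX0]
      congr 1
      ring
    have h5 : C i ≤ (1 / 2 : ℝ) ^ (i + 1) * (X : ℝ) ^ (σ - σ') := by
      have h6 : (1 / 2 : ℝ) ^ (i + 1) * 2 ^ (i + 1) = 1 := by rw [← mul_pow]; norm_num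
      calc C i = (1 / 2 : ℝ) ^ (i + 1) * (C i * 2 ^ (i + 1)) := by
            rw [mul_comm (C i), ← mul_assoc, h6, one_mul]
        _ ≤ _ := mul_le_mul_of_nonneg_left h3 (by positivity)
    rw [h4]
    calc C i * (X : ℝ) ^ σ' ≤ ((1 / 2 : ℝ) ^ (i + 1) * (X : ℝ) ^ (σ - σ')) * (X : ℝ) ^ σ' :=
          mul_le_mul_of_nonneg_right h5 (by positivity)
      _ = _ := by ring
  choose M hM1 hM2 using h1
  refine ⟨{p | ∃ i, p ∈ A i ∧ M i < p}, fun X hX => ?_, fun i => ?_⟩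
  · have hX0 : (0 : ℝ) < X := by exact_mod_cast hX
    obtain ⟨B, hB⟩ : ∃ B : ℕ → Set ℕ, B = fun i => {p : ℕ | (p ∈ A i ∧ p ≤ X) ∧ M i < p} := ⟨_, rfl⟩
    have hfin : ∀ i, {p : ℕ | p ∈ A i ∧ p ≤ X}.Finite := fun i => (Set.finite_Iic X).subset fun p hp => hp.2
    have hBc : ∀ i, ((B i).ncard : ℝ) ≤ (1 / 2 : ℝ) ^ (i + 1) * (X : ℝ) ^ σ := by
      intro i
      by_cases h2 : M i < X
      · have h3 : B i ⊆ {p : ℕ | p ∈ A i ∧ p ≤ X} := by
          intro p hp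
          rw [hB] at hp
          exact hp.1
        calc ((B i).ncard : ℝ) ≤ ({p : ℕ | p ∈ A i ∧ p ≤ X}.ncard : ℝ) := by
              exact_mod_cast Set.ncard_le_ncard h3 (hfin i)
          _ ≤ C i * (X : ℝ) ^ σ' := hA i X hX
          _ ≤ _ := hM2 i X h2.le hX
      · have h3 : B i = ∅ := by
          rw [Set.eq_empty_iff_forall_notMem]
          intro p hp
          rw [hB] at hp
          have h4 := hp.1.2
          have h5 := hp.2
          omega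
        rw [h3, Set.ncard_empty, Nat.cast_zero]
        positivity
    have hsub : {p : ℕ | p ∈ {p | ∃ i, p ∈ A i ∧ M i < p} ∧ p ≤ X} ⊆ ⋃ i ∈ range X, B i := by
      rintro p ⟨⟨i, h2, h3⟩, h4⟩
      rw [Set.mem_iUnion₂]
      refine ⟨i, ?_, ?_⟩
      · rw [mem_range]
        have := hM1 i
        omega
      · rw [hB]
        exact ⟨⟨h2, h4⟩, h3⟩
    have hfin2 : (⋃ i ∈ range X, B i).Finite := by
      refine Set.Finite.biUnion (Finset.finite_toSet _) fun i _ => ?_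
      rw [hB]
      exact (Set.finite_Iic X).subset fun p hp => hp.1.2
    have h2 := (Set.ncard_le_ncard hsub hfin2).trans (Finset.set_ncard_biUnion_le (range X) B)
    calc ({p : ℕ | p ∈ {p | ∃ i, p ∈ A i ∧ M i < p} ∧ p ≤ X}.ncard : ℝ) ≤ ∑ i ∈ range X, ((B i).ncard : ℝ) := by
          exact_mod_cast h2
      _ ≤ ∑ i ∈ range X, (1 / 2 : ℝ) ^ (i + 1) * (X : ℝ) ^ σ := sum_le_sum fun i _ => hBc i
      _ = (∑ i ∈ range X, (1 / 2 : ℝ) ^ i) * (1 / 2) * (X : ℝ) ^ σ := by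
          rw [sum_mul, sum_mul]
          exact sum_congr rfl fun i _ => by rw [pow_succ]
      _ ≤ 2 * (1 / 2) * (X : ℝ) ^ σ := by
          have h3 : ∑ i ∈ range X, (1 / 2 : ℝ) ^ i ≤ 2 := by
            have := (summable_geometric_two).sum_le_tsum (range X) (fun i _ => by positivity)
            rwa [tsum_geometric_two] at this
          gcongr
      _ = (X : ℝ) ^ σ := by ring
  · refine (Set.finite_Iic (M i)).subset ?_
    rintro p ⟨h2, h3⟩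
    rw [Set.mem_Iic]
    by_contra hcon
    exact h3 ⟨i, h2, by omega⟩

/-- **Subgroups.** One exceptional set of primes for countably many thin sets. -/
theorem subs_all {T : Type} (h : T → ℝ) {𝓢 : Set (Set T)} (h𝓢 : 𝓢.Countable) {G : ℕ → ℝ}
    {d : ℝ} (hG : Expanding G d) {s κ : ℝ} (hs : 0 ≤ s) (hκ : 0 ≤ κ) (h1 : d * s + κ < 1)
    (hthin : ∀ S ∈ 𝓢, Thin h s S) {c η : ℝ} (hc0 : 0 ≤ c) (hc1 : c < 1) (hη : η < (1 - c) * (1 - (d * s + κ)) / 2) :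
    ∃ E : Set ℕ, (∀ X : ℕ, 1 ≤ X → ({p : ℕ | p ∈ E ∧ p ≤ X}.ncard : ℝ) ≤ (X : ℝ) ^ (1 - η)) ∧
      ∀ S ∈ 𝓢, {p : ℕ | p.Prime ∧ p ∉ E ∧ ¬ ∀ w, SubOrder ((p : ℝ) ^ c) p w → ∀ t ∈ S,
        ¬ |h t - G w| ≤ (w : ℝ) ^ κ}.Finite := by
  rcases 𝓢.eq_empty_or_nonempty with he | hne
  · refine ⟨∅, fun X _ => ?_, fun S hS => ?_⟩
    · simp only [Set.mem_empty_iff_false, false_and, Set.ofPred_false, Set.ncard_empty, Nat.cast_zero]
      positivity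
    · rw [he] at hS
      exact absurd hS (Set.notMem_empty _)
  obtain ⟨g, hg⟩ := h𝓢.exists_eq_range hne
  have hgS : ∀ i, g i ∈ 𝓢 := fun i => by rw [hg]; exact ⟨i, rfl⟩
  obtain ⟨η', hη1, hη2⟩ := exists_between hη
  choose C hC using fun i => sub_windows (g i) h hG hs hκ h1 (hthin _ (hgS i)) hc0 hc1 hη2
  obtain ⟨E, hE1, hE2⟩ := one_set (σ := 1 - η) (σ' := 1 - η') (by linarith)
    (fun i => {p : ℕ | p.Prime ∧ ¬ ∀ w, SubOrder ((p : ℝ) ^ c) p w → ∀ t ∈ g i, ¬ |h t - G w| ≤ (w : ℝ) ^ κ}) C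
    (fun i X hX => by
      refine le_trans ?_ (hC i X hX)
      have hfin : {p : ℕ | p.Prime ∧ p ≤ X ∧ ∃ n, SubOrder ((X : ℝ) ^ c) p n ∧
          ∃ t ∈ g i, |h t - G n| ≤ (n : ℝ) ^ κ}.Finite := (Set.finite_Iic X).subset fun p hp => hp.2.1
      rw [Nat.cast_le]
      refine Set.ncard_le_ncard ?_ hfin
      rintro p ⟨⟨hp, hn⟩, hpX⟩
      push Not at hn
      obtain ⟨w, ⟨H, hH, u, hu, a, ha, haB, hua⟩, t, ht, ht2⟩ := hn
      refine ⟨hp, hpX, w, ⟨H, hH, u, hu, a, ha, haB.trans ?_, hua⟩, t, ht, ht2⟩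
      exact Real.rpow_le_rpow (Nat.cast_nonneg _) (by exact_mod_cast hpX) hc0)
  refine ⟨E, hE1, fun S hS => ?_⟩
  rw [hg] at hS
  obtain ⟨i, rfl⟩ := hS
  refine (hE2 i).subset ?_
  rintro p ⟨hp, hpE, h2⟩
  exact ⟨⟨hp, h2⟩, hpE⟩

end Pool.Agent.T9h86.PK
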