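import Pool.Agent.T9h86.PK.One
import Pool.Agent.R424.PT.Fam

/-!
# The rational parameters with atypical intersections, of all one-parameter families
-/

set_option autoImplicit false

namespace Pool.Agent.T9h86.PK

open Cardinal Pool.Agent.R424.PT
open Pool.Agent.Results.MP_28d749_ag.RandomMultisections (curve)

instance countable_algebraicClosure : Countable (algebraicClosure ℚ ℂ) := by
  have h := Algebraic.countable ℚ ℂ
  have e : ((algebraicClosure ℚ ℂ : IntermediateField ℚ ℂ) : Set ℂ) = {x : ℂ | IsAlgebraic ℚ x} := by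
    ext x
    simp [mem_algebraicClosure_iff]
  rw [← e] at h
  exact h.to_subtype

instance countable_coeff : Countable (Polynomial (algebraicClosure ℚ ℂ)) := by
  rw [← mk_le_aleph0_iff]
  exact Polynomial.cardinalMk_le_max.trans (max_le (mk_le_aleph0_iff.2 inferInstance) le_rfl)

instance countable_pol (σ : Type) [Countable σ] : Countable (MvPolynomial σ (Polynomial (algebraicClosure ℚ ℂ))) := by
  rw [← mk_le_aleph0_iff]
  exact MvPolynomial.cardinalMk_le_max.trans (max_le (max_le (mk_le_aleph0_iff.2 inferInstance)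
    (mk_le_aleph0_iff.2 inferInstance)) le_rfl)

/-- The member `X_t` of the family, `t = u / v`, has no atypical intersection with algebraic subgroups of the fibres. -/
def GoodAt {κ : Type} {r q N : ℕ} (F : κ → MvPolynomial (Coord r q ⊕ Fin N) (Polynomial (algebraicClosure ℚ ℂ)))
    (m : ℕ) (t : ℤ × ℕ) : Prop :=
  NoAtypicalP m (MemberP F ((t.1 : ℂ) / t.2) :
    ∀ s : Fin 2 ⊕ Fin r → ℂ, (Fin q → (curve (s (Sum.inl 0)) (s (Sum.inl 1))).Point) → Prop)

/-- The fractions `u / v` in lowest terms with `1 ≤ v ≤ |u| ^ η` -/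
def Frac (η : ℝ) (t : ℤ × ℕ) : Prop := 1 ≤ t.2 ∧ (t.2 : ℝ) ≤ |(t.1 : ℝ)| ^ η ∧ IsCoprime t.1 (t.2 : ℤ)

/-- The fractions for which the member of the family has an atypical intersection. -/
def badSet {κ : Type} {r q N : ℕ} (F : κ → MvPolynomial (Coord r q ⊕ Fin N) (Polynomial (algebraicClosure ℚ ℂ)))
    (m : ℕ) (η : ℝ) : Set (ℤ × ℕ) :=
  {t | Frac η t ∧ ¬ GoodAt F m t}

/-- The sets of the bad fractions of all families which satisfy the tropical condition. -/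
def badSets (η : ℝ) : Set (Set (ℤ × ℕ)) :=
  {S | ∃ (κ : Type) (_ : Finite κ) (r q N m : ℕ)
    (F : κ → MvPolynomial (Coord r q ⊕ Fin N) (Polynomial (algebraicClosure ℚ ℂ))) (D : Finset ℚ),
    GenericP m (fun j => (F j).support) (orders F D) ∧ S = badSet F m η}

lemma member_reindex {κ κ' : Type} (e : κ ≃ κ') {r q N : ℕ}
    (F : κ → MvPolynomial (Coord r q ⊕ Fin N) (Polynomial (algebraicClosure ℚ ℂ))) (t : ℂ) :
    (MemberP (fun j => F (e.symm j)) t : ∀ s : Fin 2 ⊕ Fin r → ℂ,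
      (Fin q → (curve (s (Sum.inl 0)) (s (Sum.inl 1))).Point) → Prop) = MemberP F t := by
  funext s P
  apply propext
  unfold MemberP OnX
  refine and_congr_right fun _ => and_congr_right fun _ => exists_congr fun y => ?_
  constructor
  · intro h j
    have := h (e j)
    simpa using this
  · intro h j
    exact h (e.symm j)

theorem badSets_countable (η : ℝ) : (badSets η).Countable := by
  have h : badSets η ⊆ Set.range (fun x : Σ n : ℕ, Σ r : ℕ, Σ q : ℕ, Σ N : ℕ,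
      ℕ × (Fin n → MvPolynomial (Coord r q ⊕ Fin N) (Polynomial (algebraicClosure ℚ ℂ))) =>
      badSet x.2.2.2.2.2 x.2.2.2.2.1 η) := by
    rintro S ⟨κ, hκ, r, q, N, m, F, D, -, rfl⟩
    obtain ⟨n, ⟨e⟩⟩ := Finite.exists_equiv_fin κ
    refine ⟨⟨n, r, q, N, m, fun j => F (e.symm j)⟩, ?_⟩
    show badSet (fun j => F (e.symm j)) m η = badSet F m η
    unfold badSet GoodAt
    simp only [member_reindex e F]
  exact (Set.countable_range _).mono h

/-- **The count.** -/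
theorem badSets_thin {η : ℝ} (hη0 : 0 ≤ η) (hη1 : η ≤ 1) :
    ∀ S ∈ badSets η, Thin (fun t : ℤ × ℕ => |(t.1 : ℝ)|) (1 / 2 + η) S := by
  rintro S ⟨κ, hκ, r, q, N, m, F, D, hgen, rfl⟩ ε hε
  obtain ⟨C, hC⟩ := ratP F D m hgen
  refine ⟨|C|, fun X hX => ?_⟩
  have hX0 : 0 ≤ X := by linarith
  obtain ⟨B, hB⟩ : ∃ B : ℕ, B = ⌊X⌋₊ := ⟨_, rfl⟩
  have hB1 : 1 ≤ B := by rw [hB]; exact Nat.le_floor (by exact_mod_cast hX)
  have hBX : (B : ℝ) ≤ X := by rw [hB]; exact Nat.floor_le hX0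
  obtain ⟨V, hV⟩ : ∃ V : ℕ, V = ⌊X ^ η⌋₊ := ⟨_, rfl⟩
  have hXη : X ^ η ≤ X := by
    calc X ^ η ≤ X ^ (1 : ℝ) := Real.rpow_le_rpow_of_exponent_le hX hη1
      _ = X := Real.rpow_one _
  have hVB : V ≤ B := by rw [hV, hB]; exact Nat.floor_le_floor hXη
  obtain ⟨U, hU⟩ : ∃ U : ℕ → Set ℤ, U = fun v : ℕ => {u : ℤ | |u| ≤ B ∧ IsCoprime u (v : ℤ) ∧
      ¬ NoAtypicalP m (MemberP F ((u : ℂ) / v) :
        ∀ s : Fin 2 ⊕ Fin r → ℂ, (Fin q → (curve (s (Sum.inl 0)) (s (Sum.inl 1))).Point) → Prop)} := ⟨_, rfl⟩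
  have hUfin : ∀ v, (U v).Finite := by
    intro v
    rw [hU]
    refine (Set.finite_Icc (-(B : ℤ)) B).subset fun u hu => ?_
    exact abs_le.1 hu.1
  have hUc : ∀ v ∈ Finset.Icc 1 V, ((U v).ncard : ℝ) ≤ |C| * X ^ (1 / 2 : ℝ) := by
    intro v hv
    rw [Finset.mem_Icc] at hv
    have h1 := hC B hB1 v hv.1 (hv.2.trans hVB)
    rw [hU]
    refine h1.trans ?_
    rw [Real.sqrt_eq_rpow]
    calc C * (B : ℝ) ^ (1 / 2 : ℝ) ≤ |C| * (B : ℝ) ^ (1 / 2 : ℝ) :=
          mul_le_mul_of_nonneg_right (le_abs_self _) (by positivity)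
      _ ≤ |C| * X ^ (1 / 2 : ℝ) := mul_le_mul_of_nonneg_left
          (Real.rpow_le_rpow (Nat.cast_nonneg _) hBX (by norm_num)) (abs_nonneg _)
  have hsub : {t : ℤ × ℕ | t ∈ badSet F m η ∧ |(t.1 : ℝ)| ≤ X} ⊆
      ⋃ v ∈ Finset.Icc 1 V, (fun u : ℤ => (u, v)) '' U v := by
    rintro ⟨u, v⟩ ⟨⟨⟨h1, h2, h3⟩, h4⟩, h5⟩
    rw [Set.mem_iUnion₂]
    refine ⟨v, ?_, u, ?_, rfl⟩
    · rw [Finset.mem_Icc]
      refine ⟨h1, ?_⟩
      rw [hV]
      exact Nat.le_floor (h2.trans (Real.rpow_le_rpow (abs_nonneg _) h5 hη0))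
    · rw [hU]
      refine ⟨?_, h3, h4⟩
      have h6 : |(u : ℝ)| ≤ X := h5
      have h7 : ((u.natAbs : ℕ) : ℝ) ≤ X := by
        rw [Nat.cast_natAbs, Int.cast_abs]
        exact h6
      have h8 : u.natAbs ≤ B := by rw [hB]; exact Nat.le_floor h7
      rw [Int.abs_eq_natAbs]
      exact_mod_cast h8
  have hfin : (⋃ v ∈ Finset.Icc 1 V, (fun u : ℤ => (u, v)) '' U v).Finite :=
    Set.Finite.biUnion (Finset.finite_toSet _) fun v _ => (hUfin v).image _
  refine ⟨hfin.subset hsub, ?_⟩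
  have h1 := (Set.ncard_le_ncard hsub hfin).trans (Finset.set_ncard_biUnion_le (Finset.Icc 1 V)
    (fun v => (fun u : ℤ => (u, v)) '' U v))
  calc ({t : ℤ × ℕ | t ∈ badSet F m η ∧ |(t.1 : ℝ)| ≤ X}.ncard : ℝ)
      ≤ ∑ v ∈ Finset.Icc 1 V, (((fun u : ℤ => (u, v)) '' U v).ncard : ℝ) := by exact_mod_cast h1
    _ ≤ ∑ _v ∈ Finset.Icc 1 V, |C| * X ^ (1 / 2 : ℝ) := by
        refine Finset.sum_le_sum fun v hv => le_trans ?_ (hUc v hv)
        exact_mod_cast Set.ncard_image_le (hUfin v)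
    _ = (V : ℝ) * (|C| * X ^ (1 / 2 : ℝ)) := by
        rw [Finset.sum_const, Nat.card_Icc, nsmul_eq_mul]
        push_cast
        simp
    _ ≤ X ^ η * (|C| * X ^ (1 / 2 : ℝ)) := by
        refine mul_le_mul_of_nonneg_right ?_ (by positivity)
        rw [hV]
        exact Nat.floor_le (by positivity)
    _ = |C| * X ^ (1 / 2 + η) := by
        rw [Real.rpow_add (by linarith)]
        ring
    _ ≤ |C| * X ^ (1 / 2 + η + ε) := mul_le_mul_of_nonneg_left
        (Real.rpow_le_rpow_of_exponent_le hX (by linarith)) (abs_nonneg _)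

end Pool.Agent.T9h86.PK
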